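import Pool.Agent.Helper65.HF.StN

/-!
Project HF, module TTB: the transport inequality for the excess.
-/

set_option autoImplicit false

namespace Pool.Agent.Helper8.HF

open MvPolynomial Pool.Agent.Helper45 Pool.Agent.Helper65.HF

private theorem wd_nonneg (p M : ℕ) : 0 ≤ wd p M := by
  unfold wd
  positivity

private theorem wd_mul {s d M : ℕ} (h1 : 1 ≤ s) (h2 : s < d) :
    wd (s - 1) M * (M : ℝ) ^ (d - 1 - s) = wd (d - 2) M := by
  unfold wd
  have e : d - 2 = (s - 1) + (d - 1 - s) := by omega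
  rw [e, pow_add]
  ring

/-- the window is small -/
private theorem wd_small {d : ℕ} (hd : 2 ≤ d) {C c : ℝ} (hC : 0 < C) (hc : 0 < c) :
    ∃ M2 : ℕ, ∀ M ≥ M2, C * wd (d - 2) M ≤ c * (M : ℝ) ^ (d - 1) := by
  have hε : 0 < (c / C) ^ 2 := by positivity
  have h1 := Real.isLittleO_log_id_atTop.bound hε
  have h2 := tendsto_natCast_atTop_atTop (R := ℝ) |>.eventually h1
  obtain ⟨M2, hM2⟩ := Filter.eventually_atTop.1 h2
  refine ⟨M2, fun M hM => ?_⟩
  have h3 := hM2 M hM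
  simp only [id, Real.norm_eq_abs] at h3
  rw [abs_of_nonneg (Nat.cast_nonneg M : (0 : ℝ) ≤ (M : ℝ))] at h3
  have h4 : Real.log M ≤ (c / C) ^ 2 * M := (le_abs_self _).trans h3
  have h5 : Real.sqrt (M * Real.log M) ≤ c / C * M := by
    rw [Real.sqrt_le_iff]
    refine ⟨by positivity, ?_⟩
    calc (M : ℝ) * Real.log M ≤ M * ((c / C) ^ 2 * M) :=
          mul_le_mul_of_nonneg_left h4 (Nat.cast_nonneg M)
      _ = (c / C * M) ^ 2 := by ring
  have e : d - 1 = (d - 2) + 1 := by omega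
  unfold wd
  rw [e, pow_succ]
  calc C * ((M : ℝ) ^ (d - 2) * Real.sqrt (M * Real.log M))
      ≤ C * ((M : ℝ) ^ (d - 2) * (c / C * M)) := by
        refine mul_le_mul_of_nonneg_left ?_ hC.le
        exact mul_le_mul_of_nonneg_left h5 (by positivity)
    _ = c * ((M : ℝ) ^ (d - 2) * M) := by field_simp

theorem hTTB : Pool.Agent.Helper65.HF.sTTB := by
  intro hHUP hREC hEEB hEXA hNUS hTBH k _ _ j d cs η hj hjd hη hZ hgap hBel
  -- the constants
  have hN : ∀ s : ℕ, ∃ (C : ℝ) (M0 : ℕ), 0 < C ∧ (j ≤ s → s < d → ∀ M ≥ M0, ∀ r : ℕ,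
      (r : ℝ) ≤ (cs + η) * (M : ℝ) ^ j → ∃ ν : ℕ, ν < M ∧
      (∀ b, ν ≤ b → b < M → H k j (b + 1) r s = H k j b r s + H k j (b + 1) r (s - 1)) ∧
      (H k j ν r s : ℝ) ≤ C * wd (s - 1) M) := by
    intro s
    by_cases hs : j ≤ s ∧ s < d
    · obtain ⟨θ, C, M0, -, -, hC, h⟩ := hNUS k j d cs η hj hη hZ hgap hBel s hs.1 hs.2
      refine ⟨C, M0, hC, fun _ _ M hM r hr => ?_⟩
      obtain ⟨ν, h1, -, h2, h3⟩ := h M hM r hr
      exact ⟨ν, h1, h2, h3⟩
    · exact ⟨1, 0, one_pos, fun h1 h2 => absurd ⟨h1, h2⟩ hs⟩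
  choose Cn Mn hCn hNn using hN
  obtain ⟨M0, hE⟩ := hEXA k j d cs η hj hη hZ hgap hBel
  obtain ⟨η', c1, C2, M1, hη', hc1, -, hM1, hA, -⟩ := hEEB j d cs hj hZ
  have hcs : 0 < cs := hZ.1
  obtain ⟨C1', hC1'⟩ : ∃ C1' : ℝ, C1' = ∑ s ∈ Finset.Ico j d, Cn s := ⟨_, rfl⟩
  have hC1'0 : 0 ≤ C1' := by
    rw [hC1']
    exact Finset.sum_nonneg fun s _ => (hCn s).le
  obtain ⟨M2, hM2⟩ := wd_small (d := d) (by omega) (C := C1' + 1) (c := c1) (by linarith) hc1
  refine ⟨C1' + 1, max (max M0 M1) (max M2 ((Finset.range d).sup Mn)), by linarith, ?_⟩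
  intro M hM r hr
  have hMM0 : M0 ≤ M := (le_max_left _ _).trans ((le_max_left _ _).trans hM)
  have hMM1 : M1 ≤ M := (le_max_right _ _).trans ((le_max_left _ _).trans hM)
  have hMM2 : M2 ≤ M := (le_max_left _ _).trans ((le_max_right _ _).trans hM)
  have hMMn : ∀ s, s < d → Mn s ≤ M := by
    intro s hs
    have h1 : Mn s ≤ (Finset.range d).sup Mn := Finset.le_sup (Finset.mem_range.2 hs)
    exact h1.trans ((le_max_right _ _).trans ((le_max_right _ _).trans hM))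
  have hM0 : 1 ≤ M := hM1.trans hMM1
  have hMj : (0 : ℝ) ≤ (M : ℝ) ^ j := by positivity
  have hr1 : (r : ℝ) ≤ (cs + η) * (M : ℝ) ^ j :=
    hr.trans (mul_le_mul_of_nonneg_right (by linarith) hMj)
  have hr2 : (r : ℝ) ≤ (cs + η') * (M : ℝ) ^ j :=
    hr.trans (mul_le_mul_of_nonneg_right (by linarith) hMj)
  -- the irregular region
  have hν : ∀ s, ∃ ν : ℕ, ν < M ∧ (s < j → ν = 0) ∧ (j ≤ s → s < d →
      (∀ b, ν ≤ b → b < M → H k j (b + 1) r s = H k j b r s + H k j (b + 1) r (s - 1)) ∧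
      (H k j ν r s : ℝ) ≤ Cn s * wd (s - 1) M) := by
    intro s
    by_cases hs : j ≤ s ∧ s < d
    · obtain ⟨ν, h1, h2, h3⟩ := hNn s hs.1 hs.2 M (hMMn s hs.2) r hr1
      exact ⟨ν, h1, fun h => absurd h (not_lt.2 hs.1), fun _ _ => ⟨h2, h3⟩⟩
    · exact ⟨0, hM0, fun _ => rfl, fun h1 h2 => absurd ⟨h1, h2⟩ hs⟩
  choose ν hν1 hν2 hν3 using hν
  obtain ⟨S, hS⟩ : ∃ S : ℝ, S = ∑ s ∈ Finset.Ico j d, (H k j (ν s) r s : ℝ) *
    (M : ℝ) ^ (d - 1 - s) := ⟨_, rfl⟩
  have hSle : S ≤ C1' * wd (d - 2) M := by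
    rw [hS, hC1', Finset.sum_mul]
    refine Finset.sum_le_sum fun s hs => ?_
    rw [Finset.mem_Ico] at hs
    calc (H k j (ν s) r s : ℝ) * (M : ℝ) ^ (d - 1 - s)
        ≤ (Cn s * wd (s - 1) M) * (M : ℝ) ^ (d - 1 - s) :=
          mul_le_mul_of_nonneg_right (hν3 s hs.1 hs.2).2 (by positivity)
      _ = Cn s * wd (d - 2) M := by
          rw [mul_assoc, wd_mul (by omega) hs.2]
  have hwd := wd_nonneg (d - 2) M
  have e1 : (H k j M r (d - 1) : ℝ) = (EE j M r (d - 1) : ℝ) := by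
    have := hE M hMM0 r hr1 (d - 1) (by omega)
    exact_mod_cast this
  have e2 : (H k j M r (d - j) : ℝ) = (EE j M r (d - j) : ℝ) := by
    have := hE M hMM0 r hr1 (d - j) (by omega)
    exact_mod_cast this
  have h1 := (hA (d - 1) (by omega) M r hMM1 hr2).1
  have h2 := hM2 M hMM2
  have hnn : 0 ≤ (H k j M r (d - 1) : ℝ) - S := by
    rw [e1]
    have : C1' * wd (d - 2) M ≤ (C1' + 1) * wd (d - 2) M :=
      mul_le_mul_of_nonneg_right (by linarith) hwd
    linarith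
  have h3 := hTBH k j d M r ν (by omega) (by omega) hM0 hν1 (fun s hs => hν2 s hs)
    (fun s hs1 hs2 => (hν3 s hs1 hs2).1) (by rw [← hS]; exact hnn)
  rw [← hS] at h3
  -- the excess
  have r2 : (EE j M (r + 1) d : ℝ) = (EE j M r d : ℝ) - (EE j M r (d - j) : ℝ) := by
    have := hREC.2.1 j M r d (by omega)
    rw [if_pos hjd.le] at this
    exact_mod_cast this
  have r1 : (EE j M r d : ℝ) = (EE j (M - 1) r d : ℝ) + (EE j M r (d - 1) : ℝ) := by
    have := hREC.1 j (M - 1) r (d - 1) (by omega)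
    rw [show M - 1 + 1 = M by omega, show d - 1 + 1 = d by omega] at this
    exact_mod_cast this
  have x1 : exs k j d M (r + 1) - exs k j d M r =
      (H k j M (r + 1) d : ℝ) - H k j M r d + H k j M r (d - j) := by
    unfold exs
    rw [e2, r2]
    ring
  have x2 : exs k j d (M - 1) r - exs k j d M r =
      (H k j M r (d - 1) : ℝ) - H k j M r d + H k j (M - 1) r d := by
    unfold exs
    rw [e1, r1]
    ring
  have x0 : 0 ≤ exs k j d M (r + 1) - exs k j d M r := by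
    rw [x1]
    have h4 := (hHUP k j M r d (by omega)).2.2.2.2 hjd.le
    have h5 : (H k j M r d : ℝ) ≤ (H k j M (r + 1) d : ℝ) + (H k j M r (d - j) : ℝ) := by
      exact_mod_cast h4
    linarith
  refine ⟨?_, x0⟩
  rw [← x1, ← x2, e2] at h3
  refine le_trans (mul_le_mul_of_nonneg_left ?_ x0) h3
  rw [e1]
  have : C1' * wd (d - 2) M ≤ (C1' + 1) * wd (d - 2) M :=
    mul_le_mul_of_nonneg_right (by linarith) hwd
  linarith

end Pool.Agent.Helper8.HF
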